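import Pool.Agent.LE.StmtsP

/-!
# PBD: the final bound
-/

set_option autoImplicit false

open MeasureTheory ProbabilityTheory

open scoped ENNReal

noncomputable section

namespace Pool.Agent.LE.CL.H93

open Pool.Agent.Anderson hiding box mem_box card_box
open Pool.Agent.Loc Pool.Agent.Mob Pool.Agent.Helper54.Bal Pool.Agent.LE.MN

theorem pbd (clp : ClpStmt) (crg : CrgStmt) : PbdStmt := by
  intro d δ hd hδ
  have hd0 : (3 : ℝ) ≤ d := by exact_mod_cast hd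
  obtain ⟨c, K, hc, hc4, hK, h⟩ := clp d δ (2 * d) hd hδ (by linarith)
  obtain ⟨C, hC, hg⟩ := crg d (by omega)
  refine ⟨c, C * K * (K + 4) * K, hc, hc4, ?_, ?_⟩
  · have h1 : 1 ≤ C * K := one_le_mul_of_one_le_of_one_le hC hK
    have h2 : 1 ≤ C * K * (K + 4) := one_le_mul_of_one_le_of_one_le h1 (by linarith)
    exact one_le_mul_of_one_le_of_one_le h2 hK
  intro σ E g hσ hσc hE hL
  have hσ0 : 0 < |σ| := abs_pos.2 hσ
  have hσ4 : |σ| ≤ 1 / 4 := hσc.trans hc4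
  obtain ⟨l, hl⟩ : ∃ l, l = Real.log (1 / |σ|) := ⟨_, rfl⟩
  have hl1 : 1 ≤ l := by
    rw [hl, Real.le_log_iff_exp_le (by positivity)]
    have h1 := Real.exp_one_lt_d9
    have h2 : 4 ≤ 1 / |σ| := by
      rw [le_div_iff₀ hσ0]
      linarith
    linarith
  obtain ⟨n, ρ, J, s, hs1, hsK, hρ1, hρ, hJ1, hJ, hn1, hn, hnl, hP⟩ := h σ E hσ hσc hE
  rw [← hl] at hsK hJ hnl ⊢
  have hn0 : (0 : ℝ) < n := by exact_mod_cast hn1
  have hρ0 : (1 : ℝ) ≤ ρ := by exact_mod_cast hρ1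
  have hJ0 : (1 : ℝ) ≤ J := by exact_mod_cast hJ1
  have key := hg σ E s (|σ| ^ (2 * (d : ℝ))) g J n ρ hσ0 (by linarith) (by linarith) hs1 hJ1 hn1
    hρ1 hL (Real.rpow_nonneg hσ0.le _) (by
      calc |σ| ^ (2 * (d : ℝ)) * n ≤ |σ| ^ (2 * (d : ℝ)) * |σ| ^ (-(2 * (d : ℝ))) :=
            mul_le_mul_of_nonneg_left hn (Real.rpow_nonneg hσ0.le _)
        _ = 1 := by rw [← Real.rpow_add hσ0, add_neg_cancel, Real.rpow_zero]) hP
  rw [← hl] at key
  have hlogρ : Real.log ρ ≤ 3 * l := by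
    calc Real.log ρ ≤ Real.log (|σ| ^ (-3 : ℝ)) := Real.log_le_log (by linarith) hρ
      _ = 3 * l := by
          rw [Real.log_rpow hσ0, hl, one_div, Real.log_inv]
          ring
  have hKl : 0 < K * σ ^ 2 * l ^ 4 := by positivity
  have hnd : (n : ℝ) ^ (-(1 / (d : ℝ))) ≤ K * σ ^ 2 * l ^ 4 := by
    calc (n : ℝ) ^ (-(1 / (d : ℝ))) ≤ ((K * σ ^ 2 * l ^ 4) ^ (-(d : ℝ))) ^ (-(1 / (d : ℝ))) :=
          Real.rpow_le_rpow_of_nonpos (Real.rpow_pos_of_pos hKl _) hnl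
            (by rw [neg_nonpos]; positivity)
      _ = K * σ ^ 2 * l ^ 4 := by
          rw [← Real.rpow_mul hKl.le]
          have : -(d : ℝ) * -(1 / (d : ℝ)) = 1 := by
            field_simp
          rw [this, Real.rpow_one]
  have hsum : s + l + Real.log ρ ≤ (K + 4) * l := by linarith
  have hsum0 : 0 ≤ s + l + Real.log ρ := by
    have := Real.log_nonneg hρ0
    linarith
  refine key.trans ?_
  calc C * J * (s + l + Real.log ρ) * (n : ℝ) ^ (-(1 / (d : ℝ)))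
      ≤ C * (K * l) * ((K + 4) * l) * (K * σ ^ 2 * l ^ 4) := by
        gcongr
    _ = C * K * (K + 4) * K * σ ^ 2 * l ^ 6 := by ring

end Pool.Agent.LE.CL.H93
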